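import Mathlib
import Pool.Agent.Lib.MP_da28a5_co.Defs
import Pool.Agent.Lib.MP_da28a5_co.Full
import Pool.Agent.Lib.MP_da28a5_co.PGGeom

/-!
# Finite projective geometries of rank at least three are indecomposable

For every finite field `K` (so for every prime power `q = |K|`) and every `r ≥ 3`, the matroid
polytope of `PG(r-1,q)` has no matroid subdivision other than the trivial one. The subdivisions
considered are arbitrary polytopal matroid subdivisions, not only the regular ones.
-/

namespace Pool.Agent.Results.MP_da28a5_co.Indecomposable

open Pool.Agent.MP_da28a5_co

/-- **Full answer to Q1.** `PG(r-1,q)` is indecomposable for every prime power `q` and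
every `r ≥ 3`. -/
theorem result (K : Type) [Field K] [Finite K] (r : ℕ) (hr : 3 ≤ r) :
    IsIndecomposable (PG K (Fin r → K)) := by
  classical
  intro S hS
  have := Fintype.ofFinite (Projectivization K (Fin r → K))
  refine eq_trivial hS (full_cell hS ?_)
  intro I a b c d o
  exact pg_no_split (by rwa [Module.finrank_fin_fun]) hS o

end Pool.Agent.Results.MP_da28a5_co.Indecomposable
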